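import Pool.Agent.Helper47.EN.Defs
import Pool.Agent.Helper31.RRK.Frob

/-!
# Push-forward of principal divisors: the purely inseparable case and the tower
-/

set_option autoImplicit false
set_option linter.style.haveILetI false

namespace Pool.Agent.Helper31.EN

open Polynomial IntermediateField Pool.Agent.Helper16 Pool.Agent.Helper45.S4
open Pool.Agent.Helper47.RR Pool.Agent.Helper47.EN

section insep

variable {k L M : Type} [Field k] [Field L] [Field M] [Algebra k L] [Algebra k M] [Algebra L M]
  [IsScalarTower k L M]

/-- In a finite purely inseparable extension, some power of every element, with exponent the degree,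
lies in the base field. -/
theorem pow_finrank_mem [FiniteDimensional L M] [IsPurelyInseparable L M] (x : M) :
    ∃ y : L, algebraMap L M y = x ^ Module.finrank L M := by
  obtain ⟨p, hp⟩ := ExpChar.exists L
  haveI := hp
  obtain ⟨m, hm⟩ := IsPurelyInseparable.finrank_eq_pow L M p
  obtain ⟨n, b, hb⟩ := IsPurelyInseparable.minpoly_eq_X_pow_sub_C L p x
  have h3 : x ^ p ^ n = algebraMap L M b := by
    have := minpoly.aeval L x
    rw [hb, map_sub, map_pow, aeval_X, aeval_C, sub_eq_zero] at this
    exact this
  have h4 : p ^ n ≤ p ^ m := by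
    have := minpoly.natDegree_le (A := L) x
    rwa [hb, natDegree_X_pow_sub_C, hm] at this
  rw [hm]
  by_cases hp1 : p = 1
  · subst hp1
    exact ⟨b, by rw [← h3]; simp⟩
  · have hp2 : 1 < p := by
      have := expChar_pos L p
      omega
    have h6 : n ≤ m := (Nat.pow_le_pow_iff_right hp2).1 h4
    refine ⟨b ^ p ^ (m - n), ?_⟩
    rw [map_pow, ← h3, ← pow_mul, ← pow_add, Nat.add_sub_cancel' h6]

variable [IsAlgClosed k]

/-- Above each place there is exactly one place in a purely inseparable extension, and it has
ramification index the degree. -/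
theorem insep_places (hL : IsFunctionField k L) [FiniteDimensional L M] [IsPurelyInseparable L M]
    (w : Place k M) : ram hL w = Module.finrank L M ∧
      ∀ w' : Place k M, resPl hL w' = resPl hL w → w' = w := by
  have huniq : ∀ w' : Place k M, resPl hL w' = resPl hL w → w' = w := by
    intro w' hw'
    have hq : Module.finrank L M ≠ 0 := Module.finrank_pos.ne'
    apply place_ext
    intro x hx
    obtain ⟨y, hy⟩ := pow_finrank_mem (L := L) x
    by_cases hx0 : x = 0
    · rw [hx0, map_zero]; exact zero_le
    have hxq : x ^ Module.finrank L M ≠ 0 := pow_ne_zero _ hx0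
    have h1 : w'.val (x ^ Module.finrank L M) ≤ 1 := by
      rw [map_pow]
      exact pow_le_one' hx _
    rw [← w'.ord_nonneg_iff hxq, ← hy, ord_algebraMap hL, hw'] at h1
    have hr' := ram_pos hL w'
    have hr := ram_pos hL w
    have h2 : 0 ≤ (resPl hL w).ord y := by
      by_contra hcon
      rw [not_le] at hcon
      have : (ram hL w' : ℤ) * (resPl hL w).ord y < 0 :=
        mul_neg_of_pos_of_neg (by positivity) hcon
      omega
    have h3 : 0 ≤ w.ord (x ^ Module.finrank L M) := by
      rw [← hy, ord_algebraMap hL]
      positivity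
    rw [w.ord_nonneg_iff hxq, map_pow] at h3
    by_contra hcon
    rw [not_le] at hcon
    exact absurd h3 (not_le.2 (one_lt_pow₀ hcon hq))
  refine ⟨?_, huniq⟩
  obtain ⟨T, hT, hsum⟩ := sum_ram (M := M) hL (resPl hL w)
  have hTw : T = {w} := by
    ext w'
    rw [hT, Finset.mem_singleton]
    exact ⟨huniq w', fun h => by rw [h]⟩
  rw [hTw, Finset.sum_singleton] at hsum
  exact hsum

/-- Push-forward of principal divisors, purely inseparable case. -/
theorem push_insep (hL : IsFunctionField k L) (hM : IsFunctionField k M) [FiniteDimensional L M]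
    [IsPurelyInseparable L M] (f : M) (hf : f ≠ 0) :
    ∃ g : L, g ≠ 0 ∧ Finsupp.mapDomain (resPl hL) (prin hM f) = prin hL g := by
  classical
  obtain ⟨g, hg⟩ := pow_finrank_mem (L := L) f
  have hq : Module.finrank L M ≠ 0 := Module.finrank_pos.ne'
  have hg0 : g ≠ 0 := by
    rintro rfl
    rw [map_zero] at hg
    exact pow_ne_zero _ hf hg.symm
  refine ⟨g, hg0, ?_⟩
  ext v
  obtain ⟨w, rfl⟩ := exists_above (M := M) hL v
  obtain ⟨hr, huniq⟩ := insep_places hL w
  have h1 : Finsupp.mapDomain (resPl hL) (prin hM f) (resPl hL w) = prin hM f w := by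
    rw [Finsupp.mapDomain, Finsupp.sum_apply, Finsupp.sum]
    by_cases hw : w ∈ (prin hM f).support
    · rw [Finset.sum_eq_single_of_mem w hw]
      · simp
      · intro w' _ hne
        rw [Finsupp.single_eq_of_ne]
        intro h
        exact hne (huniq w' h.symm)
    · rw [Finsupp.notMem_support_iff.1 hw]
      apply Finset.sum_eq_zero
      intro w' hw'
      rw [Finsupp.single_eq_of_ne]
      intro h
      rw [huniq w' h.symm] at hw'
      exact hw hw'
  rw [h1]
  change w.ord f = (resPl hL w).ord g
  have h2 := ord_algebraMap hL w g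
  rw [hg, hr] at h2
  have h3 : w.ord (f ^ Module.finrank L M) = Module.finrank L M * w.ord f := by
    unfold Place.ord
    rw [map_pow, WithZero.log_pow]
    simp
  rw [h3] at h2
  exact mul_left_cancel₀ (by exact_mod_cast hq) h2

end insep

section tower

variable {k : Type} [Field k]

/-- The place below, for the homomorphism `algebraMap`. -/
theorem plc_eq_resPl {L M : Type} [Field L] [Field M] [Algebra k L] [Algebra k M] [Algebra L M]
    [IsScalarTower k L M] (hL : IsFunctionField k L) (hM : IsFunctionField k M)
    [Algebra.IsAlgebraic L M] (φ : L →ₐ[k] M) (h : ∀ x, φ x = algebraMap L M x) (w : Place k M) :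
    plc hL hM φ w = resPl hL w := by
  apply plc_eq_of
  intro x hx
  rw [h] at hx
  by_cases hx0 : x = 0
  · rw [hx0, map_zero]; exact zero_le
  have hx0' : algebraMap L M x ≠ 0 := by simpa using hx0
  rw [← w.ord_nonneg_iff hx0', ord_algebraMap hL] at hx
  rw [← Place.ord_nonneg_iff _ hx0]
  have hr := ram_pos hL w
  by_contra hcon
  rw [not_le] at hcon
  have : (ram hL w : ℤ) * (resPl hL w).ord x < 0 := mul_neg_of_pos_of_neg (by positivity) hcon
  omega

variable [IsAlgClosed k]

/-- Push-forward of principal divisors, from the separable case. -/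
theorem push_prin_of_sep
    (hsep : ∀ (L M : Type) [Field L] [Field M] [Algebra k L] [Algebra k M] [Algebra L M]
      [IsScalarTower k L M] (hL : IsFunctionField k L) (hM : IsFunctionField k M)
      [FiniteDimensional L M] [Algebra.IsSeparable L M] (f : M), f ≠ 0 →
      ∃ g : L, g ≠ 0 ∧ Finsupp.mapDomain (resPl hL) (prin hM f) = prin hL g)
    {L M : Type} [Field L] [Field M] [Algebra k L] [Algebra k M]
    (hL : IsFunctionField k L) (hM : IsFunctionField k M) (φ : L →ₐ[k] M) (f : M) (hf : f ≠ 0) :
    ∃ g : L, g ≠ 0 ∧ Finsupp.mapDomain (plc hL hM φ) (prin hM f) = prin hL g := by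
  letI : Algebra L M := φ.toRingHom.toAlgebra
  haveI : IsScalarTower k L M := IsScalarTower.of_algebraMap_eq (fun x => (φ.commutes x).symm)
  haveI : FiniteDimensional L M := by
    haveI := Pool.Agent.Helper31.RRK.finiteDimensional_fieldRange hL hM φ
    let e : L ≃+* φ.fieldRange := (AlgEquiv.ofInjectiveField φ).toRingEquiv
    have h1 := Module.Finite.of_equiv_equiv (A₁ := φ.fieldRange) (B₁ := M) (A₂ := L) (B₂ := M)
      e.symm (RingEquiv.refl M) (by
        ext x
        change φ (e.symm x) = (x : M)
        obtain ⟨y, rfl⟩ := e.surjective x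
        rw [e.symm_apply_apply]
        rfl)
    exact h1
  let E := separableClosure L M
  haveI : Algebra.IsSeparable L E := inferInstance
  haveI : IsPurelyInseparable E M := separableClosure.isPurelyInseparable _ _
  haveI : IsScalarTower k E M := IsScalarTower.of_algebraMap_eq (fun x => rfl)
  have hE : IsFunctionField k E := isFunctionField_ext hL
  obtain ⟨g1, hg1, h1⟩ := push_insep hE hM f hf
  obtain ⟨g2, hg2, h2⟩ := hsep L E hL hE g1 hg1
  refine ⟨g2, hg2, ?_⟩
  rw [← h2, ← h1, ← Finsupp.mapDomain_comp]
  congr 1
  funext w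
  let i : L →ₐ[k] E := IsScalarTower.toAlgHom k L E
  let j : E →ₐ[k] M := IsScalarTower.toAlgHom k E M
  have hij : φ = j.comp i := by
    ext x
    rfl
  rw [hij, plc_comp hL hE hM, plc_eq_resPl hL hE i (fun _ => rfl),
    plc_eq_resPl hE hM j (fun _ => rfl)]
  rfl

end tower

end Pool.Agent.Helper31.EN
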