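import Pool.Agent.Helper31.EN.Push
import Pool.Agent.Helper67.EN.NormSep

/-!
# Push-forward of principal divisors is principal (module EN-P)
-/

set_option autoImplicit false
set_option linter.style.haveILetI false

namespace Pool.Agent.Helper31.EN

open Pool.Agent.Helper16 Pool.Agent.Helper45.S4 Pool.Agent.Helper47.RR Pool.Agent.Helper47.EN

/-- **Push-forward of principal divisors.** -/
theorem push_prin {k L M : Type} [Field k] [Field L] [Field M] [Algebra k L] [Algebra k M]
    [IsAlgClosed k] (hL : IsFunctionField k L) (hM : IsFunctionField k M) (φ : L →ₐ[k] M) (f : M)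
    (hf : f ≠ 0) :
    ∃ g : L, g ≠ 0 ∧ Finsupp.mapDomain (plc hL hM φ) (prin hM f) = prin hL g :=
  push_prin_of_sep (fun L M _ _ _ _ _ _ hL hM _ _ f hf =>
    ⟨Algebra.norm L f, Algebra.norm_ne_zero_iff.2 hf, mapDomain_prin_sep hL hM f hf⟩) hL hM φ f hf

end Pool.Agent.Helper31.EN
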